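import Pool.Agent.W84.G.Defs
import Pool.Agent.W78.GA.Basic

/-!
Project G (helper84), part PRN: good pairs, negative discriminant.
-/

set_option autoImplicit false

namespace Pool.Agent.W465.G

open Finset Filter
open Pool.Agent.H376R2.MR
open Pool.Agent.W78.GA Pool.Agent.W78.GC
open Pool.Agent.W84.G

theorem prn {t c : ℤ} (hD : t ^ 2 < 4 * c) (hlat : S_LAT t c) (hgaps : S_GAPSN t c)
    (hrich : S_RICHN t c) {q : ℕ} (hscc : S_SCC (cg q : Qd t c → Prop)) :
    S_PAIRS q (fun _ : Qd t c => True) := by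
  classical
  obtain ⟨ε, hε, X₁, hscc⟩ := hscc
  obtain ⟨CG, hCG, hgaps⟩ := hgaps
  obtain ⟨CL, hCL, hball⟩ : ∃ C : ℝ, 0 < C ∧ ∀ X : ℝ, 1 ≤ X → ((ball t c X).card : ℝ) ≤ C * X := by
    obtain ⟨C, hC, h1, _⟩ := hlat
    refine ⟨C + |kap t c| + 1, by positivity, ?_⟩
    intro X hX
    have h := (abs_le.1 (h1 X 1 0 hX le_rfl)).2
    have hf : (ball t c X).filter (lat 1 0) = ball t c X := by
      apply Finset.filter_true_of_mem
      intro z _
      simp [lat]
    rw [hf, Nat.cast_one, div_one] at h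
    have h2 : Real.sqrt X ≤ X := by
      rw [Real.sqrt_le_left (by linarith)]
      nlinarith
    have h3 : kap t c * X ≤ |kap t c| * X :=
      mul_le_mul_of_nonneg_right (le_abs_self _) (by linarith)
    have h5 := mul_le_mul_of_nonneg_left h2 hC.le
    nlinarith
  obtain ⟨h, hh⟩ := exists_nat_ge (8 * CG / ε + 1)
  have hh1 : (1 : ℝ) ≤ h := by
    have : 0 ≤ 8 * CG / ε := by positivity
    linarith
  have hh1' : 1 ≤ h := by exact_mod_cast hh1
  have hhG : CG / h ≤ ε / 8 := by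
    rw [div_le_div_iff₀ (by linarith) (by norm_num)]
    have : 8 * CG / ε ≤ h := by linarith
    rw [div_le_iff₀ hε] at this
    linarith
  set η : ℝ := min 1 (ε / (8 * CL)) with hηdef
  have hη : 0 < η := lt_min one_pos (by positivity)
  have hη2 : CL * η ≤ ε / 8 := by
    have : η ≤ ε / (8 * CL) := min_le_right _ _
    calc CL * η ≤ CL * (ε / (8 * CL)) := mul_le_mul_of_nonneg_left this hCL.le
      _ = ε / 8 := by field_simp
  refine ⟨h, η, hh1', hη, fun A P₀ hA hdA => ?_⟩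
  obtain ⟨P, X₂, hrich⟩ := hrich A P₀ hA hdA (ε / 8) (by linarith)
  refine ⟨P, ε / 2, |X₁| + |X₂| + CG * h + 1 / η + 8 * CG / ε + 1, by linarith, fun X hX => ?_⟩
  have p1 := abs_nonneg X₁
  have p2 := abs_nonneg X₂
  have p3 : 0 ≤ CG * h := by positivity
  have p4 : 0 ≤ 1 / η := by positivity
  have p5 : 0 ≤ 8 * CG / ε := by positivity
  have hX1 : X₁ ≤ X := (le_abs_self _).trans (by linarith)
  have hX2 : X₂ ≤ X := (le_abs_self _).trans (by linarith)
  have hXh : CG * h ≤ X := by linarith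
  have hX0 : 0 < X := by linarith
  have hXη : 1 ≤ η * X := by
    have : 1 / η ≤ X := by linarith
    rw [div_le_iff₀ hη] at this
    linarith
  have hXG : CG ≤ ε / 8 * X := by
    have : 8 * CG / ε ≤ X := by linarith
    rw [div_le_iff₀ hε] at this
    linarith
  set S : Finset (Qd t c × Qd t c) := (pball t c X ×ˢ pball t c X).filter (fun e =>
    (cg q e.1 ∧ cg q e.2 ∧ gl e.1 ≠ gl e.2 ∧ 0 < dt e.1 e.2 ∧ dt e.1 e.2 ≤ h ∧ 0 < Bf e.1 e.2) ∧
    η * X < nm e.1 ∧ η * X < nm e.2 ∧ Ri A P₀ P e.1 ∧ Ri A P₀ P e.2) with hS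
  set B0 : Finset (Qd t c) := ball t c (η * X) with hB0
  set B2 : Finset (Qd t c) := (pball t c X).filter (fun z => ¬ Ri A P₀ P z) with hB2
  set B3 : Finset (Qd t c) := S.image Prod.fst with hB3
  set B : Finset (Qd t c) := B0 ∪ B2 ∪ B3 with hB
  have hcond : ∀ w w' : Qd t c, w ∈ cball (cg q) X → w' ∈ cball (cg q) X → gl w ≠ gl w' →
      0 < dt w w' → dt w w' ≤ h → 0 < Bf w w' → w ∈ B ∨ w' ∈ B := by
    intro w w' hw hw' hgl hd hdh hip
    unfold cball at hw hw'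
    rw [mem_filter] at hw hw'
    obtain ⟨hwb, hwc⟩ := hw
    obtain ⟨hwb', hwc'⟩ := hw'
    obtain ⟨hwp, hwX⟩ := (mem_pball hD).1 hwb
    obtain ⟨hwp', hwX'⟩ := (mem_pball hD).1 hwb'
    by_cases c0 : (nm w : ℝ) ≤ η * X
    · left
      rw [hB, mem_union, mem_union]
      exact Or.inl (Or.inl ((mem_ball hD).2 ⟨(one_le_nm hD).2 (prim_ne_zero hwp), c0⟩))
    by_cases c0' : (nm w' : ℝ) ≤ η * X
    · right
      rw [hB, mem_union, mem_union]
      exact Or.inl (Or.inl ((mem_ball hD).2 ⟨(one_le_nm hD).2 (prim_ne_zero hwp'), c0'⟩))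
    by_cases cb : Ri A P₀ P w
    swap
    · left
      rw [hB, mem_union, mem_union]
      exact Or.inl (Or.inr (mem_filter.2 ⟨hwb, cb⟩))
    by_cases cb' : Ri A P₀ P w'
    swap
    · right
      rw [hB, mem_union, mem_union]
      exact Or.inl (Or.inr (mem_filter.2 ⟨hwb', cb'⟩))
    push Not at c0 c0'
    left
    rw [hB, mem_union, hB3]
    refine Or.inr (mem_image.2 ⟨(w, w'), ?_, rfl⟩)
    rw [hS, mem_filter, mem_product]
    exact ⟨⟨hwb, hwb'⟩, ⟨hwc, hwc', hgl, hd, hdh, hip⟩, c0, c0', cb, cb'⟩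
  obtain ⟨B₁, hB₁0, hB₁c, hB₁⟩ := hgaps (cg q) X h B hh1' hXh hcond
  have h0B : (0 : Qd t c) ∉ B ∪ B₁ := by
    rw [mem_union, hB, mem_union, mem_union]
    rintro (((h5 | h5) | h5) | h5)
    · exact (one_le_nm hD).1 ((mem_ball hD).1 h5).1 rfl
    · exact prim_ne_zero ((mem_pball hD).1 (mem_filter.1 h5).1).1 rfl
    · obtain ⟨x, hx, h6⟩ := mem_image.1 h5
      rw [hS, mem_filter, mem_product] at hx
      exact prim_ne_zero ((mem_pball hD).1 hx.1.1).1 h6
    · exact hB₁0 h5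
  have hmain := hscc X hX1 (B ∪ B₁) h0B (hB₁ (B ∪ B₁) subset_union_left subset_union_right)
  have k0 : (B0.card : ℝ) ≤ ε / 8 * X := by
    calc (B0.card : ℝ) ≤ CL * (η * X) := hball _ hXη
      _ = CL * η * X := by ring
      _ ≤ ε / 8 * X := mul_le_mul_of_nonneg_right hη2 hX0.le
  have k2 : (B2.card : ℝ) ≤ ε / 8 * X := by
    have := hrich X hX2
    convert this using 3
  have k3 : (B3.card : ℝ) ≤ S.card := by
    have : B3.card ≤ S.card := card_image_le
    exact_mod_cast this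
  have k1 : (B₁.card : ℝ) ≤ ε / 4 * X := by
    calc (B₁.card : ℝ) ≤ CG * (X / h + 1) := hB₁c
      _ = CG / h * X + CG := by ring
      _ ≤ ε / 8 * X + ε / 8 * X := add_le_add (mul_le_mul_of_nonneg_right hhG hX0.le) hXG
      _ = ε / 4 * X := by ring
  have ku : ((B ∪ B₁).card : ℝ) ≤ B0.card + B2.card + B3.card + B₁.card := by
    have u1 := card_union_le B B₁
    have u2 : B.card ≤ (B0 ∪ B2).card + B3.card := by rw [hB]; exact card_union_le _ _
    have u3 := card_union_le B0 B2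
    have : (B ∪ B₁).card ≤ B0.card + B2.card + B3.card + B₁.card := by omega
    exact_mod_cast this
  refine ⟨S, by linarith, fun e he => ?_⟩
  rw [hS, mem_filter, mem_product] at he
  obtain ⟨⟨he1, he2⟩, ⟨hc1, hc2, hgl, hd, hdh, hbf⟩, hn1, hn2, hr1, hr2⟩ := he
  obtain ⟨hp1, hX1'⟩ := (mem_pball hD).1 he1
  obtain ⟨hp2, hX2'⟩ := (mem_pball hD).1 he2
  refine ⟨⟨hp1, hp2, hc1, hc2, (nm_cast hD _).symm, (nm_cast hD _).symm, hn1.le, hX1', hn2.le,
    hX2', hd.ne', ?_, hgl, hbf⟩, trivial, trivial, hr1, hr2⟩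
  rw [abs_of_pos hd]
  exact hdh

end Pool.Agent.W465.G
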